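import Pool.Agent.R404.WZ.Q

/-!
# An equality test for growing sums of products of multiple zeta values

The multiple zeta value `ζ(k_1, …, k_r)` is a period: the integral of a rational function over a simplex of
dimension `k_1 + … + k_r`. We consider expressions `∑_M c_M ∏_(w ∈ M) ζ(w)` with integral coefficients, where
the products `M` consist of the values `ζ(a_1 N + b_1, …, a_r N + b_r)` with `a_i ≥ 1` and `b_i ≤ J`, the sum
of all the `a_i` in a product being at most `D`. Here `J ≤ N ^ θ`, so that the number of the terms may grow as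
a power of `N`, and the sum of all `|c_M|` is at most `2 ^ (N ^ γ)`. The products can be expanded by the
stuffle product: the result is the normal form.

We prove, for `(D + 1) θ < 1`, `γ + D θ < 1` and `D θ < ε`: for all large `N` two such expressions have the
same value if and only if they have the same normal form, and if and only if any approximations of the values
with the error `N ^ (-ε N) / 4` differ by at most `N ^ (-ε N) / 2`. So the equality of these periods, which are
given by integrals over domains of dimension `> N`, is decided by the comparison of `O(N log N)` digits.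

In the result MultipleZetaValues on this page the number of the terms is bounded, the arguments are arbitrary
(and the number of the digits is `O(N)`).

The proof uses the theorem `expansions` of `Pool.Agent.R404.WZ.Q` (starting library), which has only the
statement that small combinations have the normal form zero.
-/

set_option autoImplicit false

namespace Pool.Agent.Results.MP_bbe012_lc.GrowingExpressions

open Finset

/-- `trunc [s_1, ..., s_r] m` is the sum of `∏ n_i ^ (-s_i)` over `m > n_1 > ... > n_r ≥ 1` -/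
noncomputable def trunc : List ℕ → ℕ → ℝ
  | [], _ => 1
  | s :: l, m => ∑ j ∈ Finset.Ico 1 m, trunc l j / (j : ℝ) ^ s

/-- the multiple zeta value `ζ(s_1, ..., s_r)`, the sum of `∏ n_i ^ (-s_i)` over
`n_1 > ... > n_r ≥ 1`; `ζ() = 1` -/
noncomputable def mzv : List ℕ → ℝ
  | [] => 1
  | s :: l => ∑' m : ℕ, trunc l (m + 1) / ((m + 1 : ℕ) : ℝ) ^ s

/-- the indices in the stuffle product of two indices, with multiplicities -/
def stuffle : List ℕ → List ℕ → List (List ℕ)
  | [], v => [v]
  | x :: u, [] => [x :: u]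
  | x :: u, y :: v =>
    (stuffle u (y :: v)).map (x :: ·) ++ (stuffle (x :: u) v).map (y :: ·) ++
      (stuffle u v).map ((x + y) :: ·)
termination_by k l => k.length + l.length

/-- the indices in the stuffle product of several indices, with multiplicities -/
def stuffleAll : List (List ℕ) → List (List ℕ)
  | [] => [[]]
  | u :: M => (stuffleAll M).flatMap (stuffle u)

/-- words; the letter `(a, b)` stands for the argument `a N + b` -/
abbrev Word := List (ℕ × ℕ)

/-- the index `(a_1 N + b_1, ..., a_r N + b_r)` of a word -/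
def index (N : ℕ) (w : Word) : List ℕ := w.map fun y => y.1 * N + y.2

/-- An expression: a product `M` of multiple zeta values is given by the list of the words, and has the
coefficient `c M`. -/
abbrev Expression := List Word →₀ ℤ

/-- the value of an expression -/
noncomputable def val (N : ℕ) (c : Expression) : ℝ :=
  c.sum fun M a => (a : ℝ) * (M.map fun w => mzv (index N w)).prod

/-- the normal form of an expression: the coefficients of the indices after the expansion of the products
by the stuffle product -/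
noncomputable def normal (N : ℕ) (c : Expression) (u : List ℕ) : ℤ :=
  c.sum fun M a => a * ((stuffleAll (M.map (index N))).count u : ℤ)

/-- The products in the expression have the words `(a_1, b_1) ... (a_r, b_r)` with `r ≥ 1`, `a_i ≥ 1`,
`b_i ≤ J`, the sum of all `a_i` in a product being at most `D`, and the sum of the absolute values of the
coefficients is at most `2 ^ (N ^ γ)`. -/
structure Bounded (D J : ℕ) (γ : ℝ) (N : ℕ) (c : Expression) : Prop where
  words : ∀ M ∈ c.support, ∀ w ∈ M, w ≠ [] ∧ ∀ y ∈ w, 1 ≤ y.1 ∧ y.2 ≤ J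
  size : ∀ M ∈ c.support, (M.map fun w => (w.map Prod.fst).sum).sum ≤ D
  height : ∑ M ∈ c.support, |(c M : ℝ)| ≤ (2 : ℝ) ^ ((N : ℝ) ^ γ)

open Pool.Agent.Y760.ZF (sti stil Cl mz_prod)
open Pool.Agent.Y760.ZG (mz hr)

theorem trunc_eq : ∀ l m, trunc l m = hr l m := by
  intro l
  induction l with
  | nil => intro m; rw [trunc, hr]
  | cons s l ih =>
    intro m
    rw [trunc, hr]
    exact Finset.sum_congr rfl fun j _ => by rw [ih]

theorem mzv_eq : mzv = mz := by
  funext l
  cases l with
  | nil => rw [mzv, mz]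
  | cons s l =>
    rw [mzv, mz]
    exact tsum_congr fun k => by rw [trunc_eq]

theorem stuffle_eq : ∀ u v, stuffle u v = sti u v := by
  intro u v
  induction u, v using sti.induct with
  | case1 v => rw [stuffle, sti]
  | case2 x u => rw [stuffle, sti]
  | case3 x u y v ih1 ih2 ih3 => rw [stuffle, sti, ih1, ih2, ih3]

theorem stuffleAll_eq (M : List (List ℕ)) : stuffleAll M = stil M := by
  induction M with
  | nil => rw [stuffleAll, stil]
  | cons u M ih =>
    rw [stuffleAll, stil, ih]
    congr 1
    funext v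
    exact stuffle_eq u v

/-- the number of the letters is at most the size -/
lemma length_le_size {J : ℕ} (w : Word) (hw : ∀ y ∈ w, 1 ≤ y.1 ∧ y.2 ≤ J) :
    w.length ≤ (w.map Prod.fst).sum ∧ ∀ y ∈ w, y.1 ≤ (w.map Prod.fst).sum := by
  induction w with
  | nil => simp
  | cons y w ih =>
    obtain ⟨h1, h2⟩ := ih fun y hy => hw y (List.mem_cons_of_mem _ hy)
    have h3 := (hw y List.mem_cons_self).1
    rw [List.map_cons, List.sum_cons, List.length_cons]
    refine ⟨by omega, fun z hz => ?_⟩
    rcases List.mem_cons.1 hz with rfl | hz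
    · omega
    · have := h2 z hz
      omega

lemma length_le_total {J : ℕ} (M : List Word) (hM : ∀ w ∈ M, w ≠ [] ∧ ∀ y ∈ w, 1 ≤ y.1 ∧ y.2 ≤ J) :
    M.length ≤ (M.map fun w => (w.map Prod.fst).sum).sum ∧
      ∀ w ∈ M, (w.map Prod.fst).sum ≤ (M.map fun w => (w.map Prod.fst).sum).sum := by
  induction M with
  | nil => simp
  | cons w M ih =>
    obtain ⟨h1, h2⟩ := ih fun w hw => hM w (List.mem_cons_of_mem _ hw)
    have h3 := hM w List.mem_cons_self
    have h4 := (length_le_size w h3.2).1
    have h5 : 1 ≤ w.length := List.length_pos_of_ne_nil h3.1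
    rw [List.map_cons, List.sum_cons, List.length_cons]
    refine ⟨by omega, fun v hv => ?_⟩
    rcases List.mem_cons.1 hv with rfl | hv
    · omega
    · have := h2 v hv
      omega

/-- the product of the values of a product of words is the sum of the values of the stuffle product -/
lemma prod_expand {D J N : ℕ} (hN : D * D + 1 ≤ N) (M : List Word)
    (hM : ∀ w ∈ M, w ≠ [] ∧ ∀ y ∈ w, 1 ≤ y.1 ∧ y.2 ≤ J)
    (hD : (M.map fun w => (w.map Prod.fst).sum).sum ≤ D) :
    (M.map fun w => mz (index N w)).prod = ((stil (M.map (index N))).map mz).sum := by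
  obtain ⟨h1, h2⟩ := length_le_total M hM
  have h3 : M.map (fun w => mz (index N w)) = (M.map (index N)).map mz := by
    rw [List.map_map]
    rfl
  rw [h3]
  have h4 : (M.map (index N)).length * D + 1 ≤ N := by
    rw [List.length_map]
    have : M.length * D ≤ D * D := Nat.mul_le_mul_right _ (h1.trans hD)
    omega
  refine mz_prod (n := N) (K := ((D * N + J : ℕ) : ℝ)) (Nat.cast_nonneg _) (r := D) _ (fun u hu => ?_) h4
  obtain ⟨w, hw, rfl⟩ := List.mem_map.1 hu
  obtain ⟨h5, h6⟩ := length_le_size w (hM w hw).2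
  have h7 := (h2 w hw).trans hD
  refine ⟨by rw [index, List.length_map]; exact h5.trans h7, fun m hm => ?_, fun k hk => ?_⟩
  · obtain ⟨y, hy, rfl⟩ := List.mem_map.1 hm
    obtain ⟨h8, h9⟩ := (hM w hw).2 y hy
    have h10 := (h6 y hy).trans h7
    have h11 : 1 * N ≤ y.1 * N := Nat.mul_le_mul_right _ h8
    have h12 : y.1 * N ≤ D * N := Nat.mul_le_mul_right _ h10
    refine ⟨by omega, ?_⟩
    exact_mod_cast (by omega : y.1 * N + y.2 ≤ D * N + J)
  · have hk' : k ∈ index N w := List.mem_of_mem_head? hk
    obtain ⟨y, hy, rfl⟩ := List.mem_map.1 hk'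
    have h11 : 1 * N ≤ y.1 * N := Nat.mul_le_mul_right _ ((hM w hw).2 y hy).1
    omega

lemma val_sub (N : ℕ) (c c' : Expression) {T : Finset (List Word)}
    (h : c.support ⊆ T) (h' : c'.support ⊆ T) :
    val N c - val N c' = ∑ M ∈ T, ((c M - c' M : ℤ) : ℝ) * (M.map fun w => mz (index N w)).prod := by
  have h1 : ∀ c : Expression, c.support ⊆ T →
      val N c = ∑ M ∈ T, (c M : ℝ) * (M.map fun w => mz (index N w)).prod := by
    intro c hc
    rw [val, Finsupp.sum_of_support_subset _ hc _ (by simp), mzv_eq]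
  rw [h1 c h, h1 c' h', ← sum_sub_distrib]
  refine sum_congr rfl fun M _ => ?_
  push_cast
  ring

lemma normal_sub (N : ℕ) (c c' : Expression) {T : Finset (List Word)}
    (h : c.support ⊆ T) (h' : c'.support ⊆ T) (u : List ℕ) :
    normal N c u - normal N c' u = ∑ M ∈ T, (c M - c' M) * ((stil (M.map (index N))).count u : ℤ) := by
  have h1 : ∀ c : Expression, c.support ⊆ T →
      normal N c u = ∑ M ∈ T, c M * ((stil (M.map (index N))).count u : ℤ) := by
    intro c hc
    rw [normal, Finsupp.sum_of_support_subset _ hc _ (by simp)]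
    refine sum_congr rfl fun M _ => ?_
    rw [stuffleAll_eq]
  rw [h1 c h, h1 c' h', ← sum_sub_distrib]
  refine sum_congr rfl fun M _ => ?_
  ring

/-- the sum over a list with multiplicities -/
lemma sum_map_count (L : List (List ℕ)) (S : Finset (List ℕ)) (h : ∀ u ∈ L, u ∈ S) :
    (L.map mz).sum = ∑ u ∈ S, (L.count u : ℝ) * mz u := by
  induction L with
  | nil => simp
  | cons a L ih =>
    rw [List.map_cons, List.sum_cons, ih fun u hu => h u (List.mem_cons_of_mem _ hu)]
    have h1 : ∀ u ∈ S, ((a :: L).count u : ℝ) * mz u = (if u = a then mz a else 0) + (L.count u : ℝ) * mz u := by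
      intro u _
      rw [List.count_cons]
      by_cases hu : u = a
      · subst hu
        simp only [beq_self_eq_true, if_true]
        push_cast
        ring
      · have hu' : (a == u) = false := by
          rw [beq_eq_false_iff_ne]
          exact fun h => hu h.symm
        rw [if_neg hu, hu']
        simp
    rw [sum_congr rfl h1, sum_add_distrib, sum_ite_eq' S a, if_pos (h a List.mem_cons_self)]

/-- **The equality test for growing expressions.** Let `D` be a natural number and `0 < θ`,
`(D + 1) θ < 1`, `γ + D θ < 1`, `D θ < ε`. For all large `N`, all `J ≤ N ^ θ` and all expressions `c`, `c'` of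
this kind (`Bounded D J γ N`: products of values `ζ(a_1 N + b_1, …, a_r N + b_r)` with `a_i ≥ 1`, `b_i ≤ J`, the
sum of all the `a_i` at most `D`, integral coefficients of total size at most `2 ^ (N ^ γ)`): the values of `c`
and `c'` are equal if and only if the normal forms are equal; and for all real `x`, `y` with
`|x - val c| ≤ N ^ (-ε N) / 4` and `|y - val c'| ≤ N ^ (-ε N) / 4`, the values are equal if and only if
`|x - y| ≤ N ^ (-ε N) / 2`. -/
theorem result (D : ℕ) (θ γ ε : ℝ) (hθ : 0 < θ) (hθD : (D + 1) * θ < 1) (hγ : γ + D * θ < 1)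
    (hε : D * θ < ε) :
    ∃ N₀ : ℕ, ∀ N : ℕ, N₀ ≤ N → ∀ J : ℕ, (J : ℝ) ≤ (N : ℝ) ^ θ → ∀ c c' : Expression,
      Bounded D J γ N c → Bounded D J γ N c' →
      (val N c = val N c' ↔ normal N c = normal N c') ∧
      ∀ x y : ℝ, |x - val N c| ≤ ((N : ℝ) ^ (ε * N))⁻¹ / 4 → |y - val N c'| ≤ ((N : ℝ) ^ (ε * N))⁻¹ / 4 →
        (val N c = val N c' ↔ |x - y| ≤ ((N : ℝ) ^ (ε * N))⁻¹ / 2) := by
  classical
  -- a slightly larger exponent for the difference
  obtain ⟨γ', hγ1, hγ2⟩ : ∃ γ' : ℝ, max γ 0 < γ' ∧ γ' + D * θ < 1 := by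
    have h1 : max γ 0 < 1 - D * θ := by
      rcases max_cases γ 0 with ⟨h, -⟩ | ⟨h, -⟩
      · rw [h]; linarith
      · rw [h]; nlinarith
    obtain ⟨γ', h2, h3⟩ := exists_between h1
    exact ⟨γ', h2, by linarith⟩
  obtain ⟨N₁, hN₁⟩ := Pool.Agent.R404.WZ.expansions D θ γ' ε 0 0 hθ hθD hγ2 hε
  -- `1 + N ^ γ ≤ N ^ γ'` for all large `N`
  have hlarge : ∃ N₂ : ℕ, ∀ N : ℕ, N₂ ≤ N → 1 + (N : ℝ) ^ γ ≤ (N : ℝ) ^ γ' := by
    have h0 : 0 < γ' := lt_of_le_of_lt (le_max_right _ _) hγ1
    have h1 : 0 < γ' - max γ 0 := by linarith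
    have h2 := (tendsto_rpow_atTop h1).comp (tendsto_natCast_atTop_atTop (R := ℝ))
    obtain ⟨N₂, h3⟩ := (h2.eventually_ge_atTop 2).exists_forall_of_atTop
    refine ⟨N₂ + 1, fun N hN => ?_⟩
    have h4 : (2 : ℝ) ≤ (N : ℝ) ^ (γ' - max γ 0) := h3 N (by omega)
    have hN1 : (1 : ℝ) ≤ N := by exact_mod_cast (by omega : 1 ≤ N)
    have hN0 : (0 : ℝ) < N := by linarith
    have h5 : (1 : ℝ) ≤ (N : ℝ) ^ (max γ 0) := Real.one_le_rpow hN1 (le_max_right _ _)
    have h6 : (N : ℝ) ^ γ ≤ (N : ℝ) ^ (max γ 0) := Real.rpow_le_rpow_of_exponent_le hN1 (le_max_left _ _)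
    have h7 : (N : ℝ) ^ γ' = (N : ℝ) ^ (γ' - max γ 0) * (N : ℝ) ^ (max γ 0) := by
      rw [← Real.rpow_add hN0]
      congr 1
      ring
    rw [h7]
    nlinarith
  obtain ⟨N₂, hN₂⟩ := hlarge
  refine ⟨max N₁ (max N₂ (D * D + 1)), fun N hN J hJ c c' hc hc' => ?_⟩
  have hNa : N₁ ≤ N := le_trans (le_max_left _ _) hN
  have hNb : N₂ ≤ N := le_trans (le_trans (le_max_left _ _) (le_max_right _ _)) hN
  have hNc : D * D + 1 ≤ N := le_trans (le_trans (le_max_right _ _) (le_max_right _ _)) hN
  set T : Finset (List Word) := c.support ∪ c'.support with hT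
  have hs := subset_union_left (s₁ := c.support) (s₂ := c'.support)
  have hs' := subset_union_right (s₁ := c.support) (s₂ := c'.support)
  have hw : ∀ M ∈ T, ∀ w ∈ M, w ≠ [] ∧ ∀ y ∈ w, 1 ≤ y.1 ∧ y.2 ≤ J := by
    intro M hM
    rcases mem_union.1 hM with h | h
    · exact hc.words M h
    · exact hc'.words M h
  have hD : ∀ M ∈ T, (M.map fun w => (w.map Prod.fst).sum).sum ≤ D := by
    intro M hM
    rcases mem_union.1 hM with h | h
    · exact hc.size M h
    · exact hc'.size M h
  have hval := val_sub N c c' hs hs'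
  have hnorm := normal_sub N c c' hs hs'
  have hδ : 0 < ((N : ℝ) ^ (ε * N))⁻¹ := by
    have : (0 : ℝ) < N := by exact_mod_cast (by omega : 0 < N)
    positivity
  -- the size of the difference
  have hsize : ∑ M ∈ T, |((c M - c' M : ℤ) : ℝ)| ≤ (2 : ℝ) ^ ((N : ℝ) ^ γ') := by
    have h1 : ∑ M ∈ T, |(c M : ℝ)| = ∑ M ∈ c.support, |(c M : ℝ)| := by
      symm
      refine sum_subset hs fun M _ hM => ?_
      rw [Finsupp.notMem_support_iff.1 hM]
      simp
    have h2 : ∑ M ∈ T, |(c' M : ℝ)| = ∑ M ∈ c'.support, |(c' M : ℝ)| := by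
      symm
      refine sum_subset hs' fun M _ hM => ?_
      rw [Finsupp.notMem_support_iff.1 hM]
      simp
    calc ∑ M ∈ T, |((c M - c' M : ℤ) : ℝ)| ≤ ∑ M ∈ T, (|(c M : ℝ)| + |(c' M : ℝ)|) :=
          sum_le_sum fun M _ => by push_cast; exact abs_sub _ _
      _ = ∑ M ∈ c.support, |(c M : ℝ)| + ∑ M ∈ c'.support, |(c' M : ℝ)| := by
          rw [sum_add_distrib, h1, h2]
      _ ≤ (2 : ℝ) ^ ((N : ℝ) ^ γ) + (2 : ℝ) ^ ((N : ℝ) ^ γ) := add_le_add hc.height hc'.height
      _ = (2 : ℝ) ^ (1 + (N : ℝ) ^ γ) := by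
          rw [Real.rpow_add (by norm_num), Real.rpow_one]
          ring
      _ ≤ _ := Real.rpow_le_rpow_of_exponent_le (by norm_num) (hN₂ N hNb)
  -- small differences have the same normal form
  have hsmall : |val N c - val N c'| ≤ ((N : ℝ) ^ (ε * N))⁻¹ → normal N c = normal N c' := by
    intro h
    funext u
    refine sub_eq_zero.1 ((hnorm u).trans ?_)
    refine hN₁ N hNa J hJ T (fun M hM => ⟨hw M hM, hD M hM⟩) (fun M => c M - c' M) hsize ∅
      (by simp) (fun _ => 0) (by simp) ?_ u
    rw [sum_empty, sub_zero]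
    rw [hval] at h
    exact h
  -- equal normal forms have equal values
  have hback : normal N c = normal N c' → val N c = val N c' := by
    intro h
    refine sub_eq_zero.1 (hval.trans ?_)
    set S : Finset (List ℕ) := T.biUnion fun M => (stil (M.map (index N))).toFinset with hS
    have h1 : ∀ M ∈ T, (M.map fun w => mz (index N w)).prod =
        ∑ u ∈ S, ((stil (M.map (index N))).count u : ℝ) * mz u := by
      intro M hM
      rw [prod_expand hNc M (hw M hM) (hD M hM)]
      exact sum_map_count _ _ fun u hu => mem_biUnion.2 ⟨M, hM, List.mem_toFinset.2 hu⟩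
    calc ∑ M ∈ T, ((c M - c' M : ℤ) : ℝ) * (M.map fun w => mz (index N w)).prod
        = ∑ M ∈ T, ∑ u ∈ S, ((c M - c' M : ℤ) : ℝ) * (((stil (M.map (index N))).count u : ℝ) * mz u) :=
          sum_congr rfl fun M hM => by rw [h1 M hM, mul_sum]
      _ = ∑ u ∈ S, ∑ M ∈ T, ((c M - c' M : ℤ) : ℝ) * (((stil (M.map (index N))).count u : ℝ) * mz u) :=
          sum_comm
      _ = ∑ u ∈ S, ((∑ M ∈ T, (c M - c' M) * ((stil (M.map (index N))).count u : ℤ) : ℤ) : ℝ) * mz u := by
          refine sum_congr rfl fun u _ => ?_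
          push_cast
          rw [sum_mul]
          exact sum_congr rfl fun M _ => by ring
      _ = 0 := by
          refine sum_eq_zero fun u _ => ?_
          rw [← hnorm u, h, sub_self]
          simp
  refine ⟨⟨fun h => hsmall (by rw [h, sub_self, abs_zero]; exact hδ.le), hback⟩, fun x y hx hy => ⟨?_, ?_⟩⟩
  · intro h
    calc |x - y| = |(x - val N c) - (y - val N c')| := by rw [h]; congr 1; ring
      _ ≤ |x - val N c| + |y - val N c'| := abs_sub _ _
      _ ≤ ((N : ℝ) ^ (ε * N))⁻¹ / 2 := by linarith
  · intro h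
    refine hback (hsmall ?_)
    calc |val N c - val N c'| = |(x - y) - ((x - val N c) - (y - val N c'))| := by congr 1; ring
      _ ≤ |x - y| + |(x - val N c) - (y - val N c')| := abs_sub _ _
      _ ≤ |x - y| + (|x - val N c| + |y - val N c'|) := by
          have := abs_sub (x - val N c) (y - val N c')
          linarith
      _ ≤ ((N : ℝ) ^ (ε * N))⁻¹ := by linarith

end Pool.Agent.Results.MP_bbe012_lc.GrowingExpressions
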