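import Pool.Agent.Y760.ZF.DSa

/-!
# A linear time equality test for multiple zeta values with large arguments

The multiple zeta value `ζ(k_1, …, k_r)` is a period: the integral of a rational function over a simplex of
dimension `n = k_1 + … + k_r`. We consider expressions `∑_M (β_1 c_(M,1) + … + β_l c_(M,l)) ∏_(u ∈ M) ζ(u)`
with real algebraic numbers `β_1, …, β_l`, linearly independent over `ℚ` (a basis of a number field), with
at most `q` terms, products of at most `d` multiple zeta values of depth at most `r`, with ARBITRARY
arguments at most `κ n`, the first arguments at least `n`, and with integers `c_(M,j)` of absolute value at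
most `C ^ n`. The products can be expanded by the stuffle product: the result is the normal form.

We prove: for all `q`, `d`, `r`, `κ`, `C` and `β` there are `B` and `n₀` such that for all `n ≥ n₀` two
such expressions have the same value if and only if they have the same normal form, and if and only if
any approximations of the values with the error `B ^ (-n)` differ by at most `2 B ^ (-n)`. So the equality
of these periods is decided by the comparison of `O(n)` digits, a number proportional to the size of the
input. For `n < n₀` there are only finitely many expressions of this kind.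

The starting file `ComparingDigits` has a numerical test for the periods of punctured lines at almost all
algebraic integers: there are exceptional points. Here there are none.

The proof uses the theorem `mainM` of `Pool.Agent.Y760.ZF.Prod` (starting library, subspace theorem).
-/

set_option autoImplicit false

namespace Pool.Agent.Results.MP_bbe012_lc.MultipleZetaValues

open Finset

/-- `trunc [s_1, ..., s_r] m` is the sum of `∏ n_i ^ (-s_i)` over `m > n_1 > ... > n_r ≥ 1` -/
noncomputable def trunc : List ℕ → ℕ → ℝ
  | [], _ => 1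
  | s :: l, m => ∑ j ∈ Finset.Ico 1 m, trunc l j / (j : ℝ) ^ s

/-- the multiple zeta value `ζ(s_1, ..., s_r)`, the sum of `∏ n_i ^ (-s_i)` over
`n_1 > ... > n_r ≥ 1`; `ζ() = 1` -/
noncomputable def mzv : List ℕ → ℝ
  | [] => 1
  | s :: l => ∑' m : ℕ, trunc l (m + 1) / ((m + 1 : ℕ) : ℝ) ^ s

/-- the indices in the stuffle product of two indices, with multiplicities -/
def stuffle : List ℕ → List ℕ → List (List ℕ)
  | [], v => [v]
  | x :: u, [] => [x :: u]
  | x :: u, y :: v =>
    (stuffle u (y :: v)).map (x :: ·) ++ (stuffle (x :: u) v).map (y :: ·) ++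
      (stuffle u v).map ((x + y) :: ·)
termination_by k l => k.length + l.length

/-- the indices in the stuffle product of several indices, with multiplicities -/
def stuffleAll : List (List ℕ) → List (List ℕ)
  | [] => [[]]
  | u :: M => (stuffleAll M).flatMap (stuffle u)

/-- An expression: a product `M` of multiple zeta values is given by the list of the indices, and has the
coefficient `(c_1, …, c_l)`, which stands for `β_1 c_1 + … + β_l c_l`. -/
abbrev Expression (l : ℕ) : Type := List (List ℕ) →₀ (Fin l → ℤ)

/-- the value of an expression -/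
noncomputable def val {l : ℕ} (β : Fin l → ℝ) (c : Expression l) : ℝ :=
  c.sum fun M a => (∑ j, β j * (a j : ℝ)) * (M.map mzv).prod

/-- the normal form of an expression: the coefficients of the indices after the expansion of the products
by the stuffle product -/
noncomputable def normal {l : ℕ} (c : Expression l) (w : List ℕ) (j : Fin l) : ℤ :=
  c.sum fun M a => a j * ((stuffleAll M).countP (· = w) : ℤ)

/-- The expression has at most `q` terms, at most `d` factors in each product, of depth at most `r`, the
arguments are at most `κ n`, the first arguments are at least `n`, and the integers in the coefficients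
are at most `C ^ n` in absolute value. -/
structure Bounded {l : ℕ} (q d r : ℕ) (κ C : ℝ) (n : ℕ) (c : Expression l) : Prop where
  terms : c.support.card ≤ q
  factors : ∀ M ∈ c.support, M.length ≤ d
  depth : ∀ M ∈ c.support, ∀ u ∈ M, u.length ≤ r
  arguments : ∀ M ∈ c.support, ∀ u ∈ M, ∀ k ∈ u, 1 ≤ k ∧ (k : ℝ) ≤ κ * n
  first : ∀ M ∈ c.support, ∀ u ∈ M, ∀ k ∈ u.head?, n ≤ k
  height : ∀ M j, |(c M j : ℝ)| ≤ C ^ n

open Pool.Agent.Y760.ZF (sti stil Cl co mainM val_expand)
open Pool.Agent.Y760.ZG (mz hr)

theorem trunc_eq : ∀ l m, trunc l m = hr l m := by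
  intro l
  induction l with
  | nil => intro m; rw [trunc, hr]
  | cons s l ih =>
    intro m
    rw [trunc, hr]
    exact Finset.sum_congr rfl fun j _ => by rw [ih]

theorem mzv_eq : mzv = mz := by
  funext l
  cases l with
  | nil => rw [mzv, mz]
  | cons s l =>
    rw [mzv, mz]
    exact tsum_congr fun k => by rw [trunc_eq]

theorem stuffle_eq : ∀ u v, stuffle u v = sti u v := by
  intro u v
  induction u, v using sti.induct with
  | case1 v => rw [stuffle, sti]
  | case2 x u => rw [stuffle, sti]
  | case3 x u y v ih1 ih2 ih3 => rw [stuffle, sti, ih1, ih2, ih3]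

theorem stuffleAll_eq (M : List (List ℕ)) : stuffleAll M = stil M := by
  induction M with
  | nil => rw [stuffleAll, stil]
  | cons u M ih =>
    rw [stuffleAll, stil, ih]
    congr 1
    funext v
    exact stuffle_eq u v

lemma val_sub {l : ℕ} (β : Fin l → ℝ) (c c' : Expression l) {T : Finset (List (List ℕ))}
    (h : c.support ⊆ T) (h' : c'.support ⊆ T) :
    val β c - val β c' = ∑ M ∈ T, (∑ j, β j * ((c M j - c' M j : ℤ) : ℝ)) * (M.map mz).prod := by
  have h1 : ∀ c : Expression l, c.support ⊆ T →
      val β c = ∑ M ∈ T, (∑ j, β j * (c M j : ℝ)) * (M.map mz).prod := by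
    intro c hc
    rw [val, Finsupp.sum_of_support_subset _ hc _ (by simp), mzv_eq]
  rw [h1 c h, h1 c' h', ← sum_sub_distrib]
  refine sum_congr rfl fun M _ => ?_
  rw [← sub_mul, ← sum_sub_distrib]
  congr 1
  refine sum_congr rfl fun j _ => ?_
  push_cast
  ring

lemma normal_sub {l : ℕ} (c c' : Expression l) {T : Finset (List (List ℕ))}
    (h : c.support ⊆ T) (h' : c'.support ⊆ T) (w : List ℕ) (j : Fin l) :
    normal c w j - normal c' w j = co T (fun M j => c M j - c' M j) w j := by
  have h1 : ∀ c : Expression l, c.support ⊆ T →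
      normal c w j = ∑ M ∈ T, c M j * ((stil M).countP (· = w) : ℤ) := by
    intro c hc
    rw [normal, Finsupp.sum_of_support_subset _ hc _ (by simp)]
    refine sum_congr rfl fun M _ => ?_
    rw [stuffleAll_eq]
  rw [h1 c h, h1 c' h', co, ← sum_sub_distrib]
  refine sum_congr rfl fun M _ => ?_
  ring

/-- **The equality test.** Let `β_1, …, β_l` be real algebraic numbers, linearly independent over `ℚ`, and
let `q`, `d`, `r`, `κ`, `C` be given. There are `B > 1` and `n₀` such that for all `n ≥ n₀` and all
expressions `c`, `c'` of this kind (`Bounded q d r κ C n`): the values of `c` and `c'` are equal if and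
only if the normal forms are equal; and for all real `u`, `v` with `|u - val c| ≤ B ^ (-n)` and
`|v - val c'| ≤ B ^ (-n)`, the values are equal if and only if `|u - v| ≤ 2 B ^ (-n)`. -/
theorem result {l : ℕ} (β : Fin l → ℝ) (hβ : ∀ j, IsAlgebraic ℚ (β j)) (hli : LinearIndependent ℚ β)
    (q d r : ℕ) (κ C : ℝ) :
    ∃ B : ℝ, 1 < B ∧ ∃ n₀ : ℕ, ∀ n : ℕ, n₀ ≤ n → ∀ c c' : Expression l,
      Bounded q d r κ C n c → Bounded q d r κ C n c' →
      (val β c = val β c' ↔ normal c = normal c') ∧
      ∀ u v : ℝ, |u - val β c| ≤ (B ^ n)⁻¹ → |v - val β c'| ≤ (B ^ n)⁻¹ →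
        (val β c = val β c' ↔ |u - v| ≤ 2 * (B ^ n)⁻¹) := by
  classical
  obtain ⟨B, hB, n₀, H⟩ := mainM β hβ hli (q + q) r d κ (2 * |C|)
  refine ⟨4 * B, by linarith, n₀ + (d * r + 1), fun n hn c c' hc hc' => ?_⟩
  set T : Finset (List (List ℕ)) := c.support ∪ c'.support with hT
  have hs := subset_union_left (s₁ := c.support) (s₂ := c'.support)
  have hs' := subset_union_right (s₁ := c.support) (s₂ := c'.support)
  have hcard : T.card ≤ q + q := (card_union_le _ _).trans (Nat.add_le_add hc.terms hc'.terms)
  have hTm : ∀ M ∈ T, M.length ≤ d ∧ ∀ u ∈ M, Cl n (κ * n) r u := by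
    intro M hM
    rcases mem_union.1 hM with h | h
    · exact ⟨hc.factors M h, fun u hu => ⟨hc.depth M h u hu, hc.arguments M h u hu, hc.first M h u hu⟩⟩
    · exact ⟨hc'.factors M h, fun u hu => ⟨hc'.depth M h u hu, hc'.arguments M h u hu, hc'.first M h u hu⟩⟩
  have hn1 : 1 ≤ n := by omega
  have hb : ∀ M ∈ T, ∀ j, |(((fun M j => c M j - c' M j) M j : ℤ) : ℝ)| ≤ (2 * |C|) ^ n := by
    intro M _ j
    have h1 := hc.height M j
    have h2 := hc'.height M j
    have h3 : C ^ n ≤ |C| ^ n := (le_abs_self _).trans (abs_pow _ _).le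
    have h4 : (2 : ℝ) ≤ 2 ^ n := le_self_pow₀ (by norm_num) (by omega)
    have h5 : 0 ≤ |C| ^ n := by positivity
    rw [mul_pow]
    push_cast
    calc |(c M j : ℝ) - c' M j| ≤ |(c M j : ℝ)| + |(c' M j : ℝ)| := abs_sub _ _
      _ ≤ 2 * |C| ^ n := by linarith
      _ ≤ 2 ^ n * |C| ^ n := mul_le_mul_of_nonneg_right h4 h5
  have hval := val_sub β c c' hs hs'
  have hnorm := normal_sub c c' hs hs'
  have hdich := H n (by omega) T hcard hTm (fun M j => c M j - c' M j) hb
  rw [← hval] at hdich
  have hB0 : 0 < B := by linarith
  have hBn : 0 < (B ^ n)⁻¹ := by positivity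
  -- a gap
  have hgap : val β c ≠ val β c' → (B ^ n)⁻¹ < |val β c - val β c'| := by
    intro hne
    rcases hdich with ⟨-, h⟩ | h
    · exact absurd (sub_eq_zero.1 h) hne
    · exact h
  constructor
  · constructor
    · intro heq
      rcases hdich with ⟨h, -⟩ | h
      · funext w j
        have := hnorm w j
        rw [h w j] at this
        exact sub_eq_zero.1 this
      · rw [heq, sub_self, abs_zero] at h
        exact absurd h (not_lt.2 hBn.le)
    · intro heq
      have h0 : ∀ w j, co T (fun M j => c M j - c' M j) w j = 0 := by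
        intro w j
        rw [← hnorm w j, heq, sub_self]
      have hκ : 0 ≤ |κ| * (n : ℝ) := by positivity
      have hTm' : ∀ M ∈ T, M.length ≤ d ∧ ∀ u ∈ M, Cl n (|κ| * n) r u := by
        intro M hM
        refine ⟨(hTm M hM).1, fun u hu => ?_⟩
        obtain ⟨h1, h2, h3⟩ := (hTm M hM).2 u hu
        exact ⟨h1, fun m hm => ⟨(h2 m hm).1, (h2 m hm).2.trans
          (mul_le_mul_of_nonneg_right (le_abs_self κ) (Nat.cast_nonneg n))⟩, h3⟩
      have h1 := val_expand β hκ T hTm' (by omega : d * r + 1 ≤ n) (fun M j => c M j - c' M j)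
        (T.biUnion fun M => (stil M).toFinset)
        (fun M hM w hw => mem_biUnion.2 ⟨M, hM, List.mem_toFinset.2 hw⟩)
      rw [← hval] at h1
      refine sub_eq_zero.1 (h1.trans (sum_eq_zero fun w _ => sum_eq_zero fun j _ => ?_))
      rw [h0 w j]
      simp
  · intro u v hu hv
    have h4 : 4 * ((4 * B) ^ n)⁻¹ ≤ (B ^ n)⁻¹ := by
      rw [mul_pow, mul_inv, ← mul_assoc]
      have h5 : (4 : ℝ) * (4 ^ n)⁻¹ ≤ 1 := by
        rw [mul_inv_le_iff₀ (by positivity), one_mul]
        exact le_self_pow₀ (by norm_num) (by omega)
      calc 4 * ((4 : ℝ) ^ n)⁻¹ * (B ^ n)⁻¹ ≤ 1 * (B ^ n)⁻¹ := mul_le_mul_of_nonneg_right h5 hBn.le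
        _ = _ := one_mul _
    constructor
    · intro heq
      calc |u - v| = |(u - val β c) - (v - val β c')| := by rw [heq]; congr 1; ring
        _ ≤ |u - val β c| + |v - val β c'| := abs_sub _ _
        _ ≤ 2 * ((4 * B) ^ n)⁻¹ := by linarith
    · intro huv
      by_contra hne
      have h5 := hgap hne
      have h6 : |val β c - val β c'| ≤ |u - v| + (|u - val β c| + |v - val β c'|) := by
        calc |val β c - val β c'| = |(u - v) - ((u - val β c) - (v - val β c'))| := by congr 1; ring
          _ ≤ |u - v| + |(u - val β c) - (v - val β c')| := abs_sub _ _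
          _ ≤ _ := by
            have := abs_sub (u - val β c) (v - val β c')
            linarith
      linarith

end Pool.Agent.Results.MP_bbe012_lc.MultipleZetaValues
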