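import Pool.Agent.X90.DC.Final
import Pool.Agent.N665.LP.Few
import Pool.Agent.Y760.ZF.DSa

/-!
# Equality of expressions in multiple zeta values over arbitrary constants

Let `x_1, …, x_m` be ARBITRARY complex numbers, for instance periods as `π`, `log 2`, `ζ(3)`, the periods of an
elliptic curve. Let `w_1, …, w_r` be patterns in `k` variables: lists of letters `b + u_1 s_1 + … + u_k s_k` with a
first letter which is not constant; at a tuple `s` they give the indices `w_i(s)`. We consider the expressions
`P(x, ζ(w_1(s)), …, ζ(w_r(s)))` with polynomials `P` of degree at most `D` with integer coefficients of absolute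
value at most `C ^ N`. If the `x_j` are periods, these are periods, given by integrals over domains of dimension at
least `N`. After the expansion of the products of the multiple zeta values by the stuffle product the expression
has the form `∑_u P_u(x) ζ(u)`, a sum over indices `u`, with polynomials `P_u` with integer coefficients.

We prove: for all but at most `K N ^ (k - 1)` of the tuples `s ∈ [N, κ N] ^ k` two such expressions, with
polynomials `P` and `Q`, are equal if and only if `P_u(x) = Q_u(x)` for all `u`. So the question of the equality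
of such periods is reduced to the question of the equality of polynomials in the fixed constants `x_j`. For
algebraically independent `x_j`, for example for `m = 1` and `x = π`, two expressions are equal if and only if
they have the same normal form, `P_u = Q_u` for all `u`. In one variable (`k = 1`) there are at most `K`
exceptional `s` in each `[N, κ N]`. Here `K` does not depend on `C` and on the `x_j`.

In the result MultipleZetaValues on this page there are no exceptions, but the coefficients are algebraic.

The proof uses the theorem `few` of `Pool.Agent.X90.DC` (starting library: elimination of the constants) and the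
linear independence of the truncated sums (`Pool.Agent.N665.LP.Zt_indep`).
-/

set_option autoImplicit false

namespace Pool.Agent.Results.MP_bbe012_lc.ReductionToConstants

open Finset

/-- `trunc [s_1, ..., s_r] m` is the sum of `∏ n_i ^ (-s_i)` over `m > n_1 > ... > n_r ≥ 1` -/
noncomputable def trunc : List ℕ → ℕ → ℝ
  | [], _ => 1
  | s :: l, m => ∑ j ∈ Finset.Ico 1 m, trunc l j / (j : ℝ) ^ s

/-- the multiple zeta value `ζ(s_1, ..., s_r)`, the sum of `∏ n_i ^ (-s_i)` over
`n_1 > ... > n_r ≥ 1`; `ζ() = 1` -/
noncomputable def mzv : List ℕ → ℝ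
  | [] => 1
  | s :: l => ∑' m : ℕ, trunc l (m + 1) / ((m + 1 : ℕ) : ℝ) ^ s

/-- the indices in the stuffle product of two indices, with multiplicities -/
def stuffle : List ℕ → List ℕ → List (List ℕ)
  | [], v => [v]
  | x :: u, [] => [x :: u]
  | x :: u, y :: v =>
    (stuffle u (y :: v)).map (x :: ·) ++ (stuffle (x :: u) v).map (y :: ·) ++
      (stuffle u v).map ((x + y) :: ·)
termination_by k l => k.length + l.length

/-- the indices in the stuffle product of several indices, with multiplicities -/
def stuffleAll : List (List ℕ) → List (List ℕ)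
  | [] => [[]]
  | u :: M => (stuffleAll M).flatMap (stuffle u)

/-- the letter `(b, u)` stands for `b + ∑ u_j s_j` -/
abbrev Letter (k : ℕ) : Type := ℕ × (Fin k → ℕ)

/-- the index given by a pattern at the tuple `s` -/
def index {k : ℕ} (s : Fin k → ℕ) (w : List (Letter k)) : List ℕ :=
  w.map fun u => u.1 + ∑ j, u.2 j * s j

/-- the first letter is not constant, and constant letters are positive -/
def Growing {k : ℕ} (w : List (Letter k)) : Prop :=
  (∀ u ∈ w.head?, u.2 ≠ 0) ∧ ∀ u ∈ w, u.2 ≠ 0 ∨ 1 ≤ u.1

/-- the value `P(x, ζ(W_1), …, ζ(W_r))` -/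
noncomputable def val {m r : ℕ} (x : Fin m → ℂ) (W : Fin r → List ℕ) (P : MvPolynomial (Fin m ⊕ Fin r) ℤ) : ℂ :=
  MvPolynomial.aeval (Sum.elim x fun i => ((mzv (W i) : ℝ) : ℂ)) P

/-- the list of the indices in the monomial with the exponent `e`, `W_i` with the multiplicity `e_i` -/
def factors {m r : ℕ} (W : Fin r → List ℕ) (e : Fin m ⊕ Fin r →₀ ℕ) : List (List ℕ) :=
  (List.finRange r).flatMap fun i => List.replicate (e (Sum.inr i)) (W i)

/-- The normal form of `P(x, ζ(W_1), …, ζ(W_r))`: the coefficient of the index `u` after the expansion of the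
products of the `ζ(W_i)` by the stuffle product; this is a polynomial in `m` variables. -/
noncomputable def normal {m r : ℕ} (W : Fin r → List ℕ) (P : MvPolynomial (Fin m ⊕ Fin r) ℤ) (u : List ℕ) :
    MvPolynomial (Fin m) ℤ :=
  ∑ e ∈ P.support, MvPolynomial.C (P.coeff e * ((stuffleAll (factors W e)).count u : ℤ)) *
    ∏ j, MvPolynomial.X j ^ e (Sum.inl j)

/-- For polynomials of degree at most `D` with integer coefficients of absolute value at most `H` the expressions
`P(x, ζ(W_1), …)` and `Q(x, ζ(W_1), …)` are equal if and only if the coefficients of all indices in the normal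
forms have the same values at `x`. -/
def Reduced {m r : ℕ} (x : Fin m → ℂ) (W : Fin r → List ℕ) (D : ℕ) (H : ℝ) : Prop :=
  ∀ P Q : MvPolynomial (Fin m ⊕ Fin r) ℤ, P.totalDegree ≤ D → Q.totalDegree ≤ D →
    (∀ e, |((P.coeff e : ℤ) : ℝ)| ≤ H) → (∀ e, |((Q.coeff e : ℤ) : ℝ)| ≤ H) →
    (val x W P = val x W Q ↔
      ∀ u, MvPolynomial.aeval x (normal W P u) = MvPolynomial.aeval x (normal W Q u))

open Pool.Agent.Y760.ZF (sti stil Cl mz_prod)
open Pool.Agent.Y760.ZG (mz hr)
open Pool.Agent.X90.DC (Zt Zt_nil Zt_mul Triv few)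
open Pool.Agent.X90.DB (ex ex_nil ex_ne ix)

theorem trunc_eq : ∀ l m, trunc l m = hr l m := by
  intro l
  induction l with
  | nil => intro m; rw [trunc, hr]
  | cons s l ih =>
    intro m
    rw [trunc, hr]
    exact Finset.sum_congr rfl fun j _ => by rw [ih]

theorem mzv_eq : mzv = mz := by
  funext l
  cases l with
  | nil => rw [mzv, mz]
  | cons s l =>
    rw [mzv, mz]
    exact tsum_congr fun k => by rw [trunc_eq]

theorem stuffle_eq : ∀ u v, stuffle u v = sti u v := by
  intro u v
  induction u, v using sti.induct with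
  | case1 v => rw [stuffle, sti]
  | case2 x u => rw [stuffle, sti]
  | case3 x u y v ih1 ih2 ih3 => rw [stuffle, sti, ih1, ih2, ih3]

theorem stuffleAll_eq (M : List (List ℕ)) : stuffleAll M = stil M := by
  induction M with
  | nil => rw [stuffleAll, stil]
  | cons u M ih =>
    rw [stuffleAll, stil, ih]
    congr 1
    funext v
    exact stuffle_eq u v

section
variable {m r : ℕ}

/-- the sum over a list with multiplicities -/
lemma sum_map_count (F : List ℕ → ℂ) (L : List (List ℕ)) (S : Finset (List ℕ)) (h : ∀ u ∈ L, u ∈ S) :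
    (L.map F).sum = ∑ u ∈ S, (L.count u : ℂ) * F u := by
  induction L with
  | nil => simp
  | cons a L ih =>
    rw [List.map_cons, List.sum_cons, ih fun u hu => h u (List.mem_cons_of_mem _ hu)]
    have h1 : ∀ u ∈ S, ((a :: L).count u : ℂ) * F u = (if u = a then F a else 0) + (L.count u : ℂ) * F u := by
      intro u _
      rw [List.count_cons]
      by_cases hu : u = a
      · subst hu
        simp only [beq_self_eq_true, if_true]
        push_cast
        ring
      · have hu' : (a == u) = false := by
          rw [beq_eq_false_iff_ne]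
          exact fun h => hu h.symm
        rw [if_neg hu, hu']
        simp
    rw [sum_congr rfl h1, sum_add_distrib, sum_ite_eq' S a, if_pos (h a List.mem_cons_self)]

lemma prod_factors (F : List ℕ → ℂ) (W : Fin r → List ℕ) (e : Fin m ⊕ Fin r →₀ ℕ) :
    ((factors W e).map F).prod = ∏ i, F (W i) ^ e (Sum.inr i) := by
  rw [factors, List.map_flatMap]
  have h1 : ∀ L : List (Fin r), ((L.flatMap fun i => (List.replicate (e (Sum.inr i)) (W i)).map F)).prod =
      (L.map fun i => F (W i) ^ e (Sum.inr i)).prod := by
    intro L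
    induction L with
    | nil => simp
    | cons a L ih =>
      rw [List.flatMap_cons, List.prod_append, ih, List.map_cons, List.prod_cons, List.map_replicate,
        List.prod_replicate]
  rw [h1]
  exact (List.prod_ofFn (f := fun i => F (W i) ^ e (Sum.inr i))).symm ▸ by rw [List.ofFn_eq_map]

/-- the values of the polynomial, if the products are expanded -/
lemma aeval_expand (x : Fin m → ℂ) (W : Fin r → List ℕ) (P : MvPolynomial (Fin m ⊕ Fin r) ℤ) (F : List ℕ → ℂ)
    (T : Finset (Fin m ⊕ Fin r →₀ ℕ)) (hT : P.support ⊆ T)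
    (hF : ∀ e ∈ T, ((factors W e).map F).prod = ((stil (factors W e)).map F).sum)
    (S : Finset (List ℕ)) (hS : ∀ e ∈ T, ∀ u ∈ stil (factors W e), u ∈ S) :
    MvPolynomial.aeval (Sum.elim x fun i => F (W i)) P =
      ∑ u ∈ S, MvPolynomial.aeval x (normal W P u) * F u := by
  have h1 : ∀ e ∈ P.support, ∏ i, F (W i) ^ e (Sum.inr i) =
      ∑ u ∈ S, ((stuffleAll (factors W e)).count u : ℂ) * F u := by
    intro e he
    rw [← prod_factors F W e, hF e (hT he), stuffleAll_eq]
    exact sum_map_count F _ S (hS e (hT he))
  rw [MvPolynomial.aeval_def, MvPolynomial.eval₂_eq']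
  calc ∑ d ∈ P.support, (algebraMap ℤ ℂ) (MvPolynomial.coeff d P) *
        ∏ i, (Sum.elim x (fun i => F (W i)) i) ^ d i
      = ∑ d ∈ P.support, ∑ u ∈ S, (((P.coeff d * ((stuffleAll (factors W d)).count u : ℤ) : ℤ) : ℂ) *
          ∏ j, x j ^ d (Sum.inl j)) * F u := by
        refine sum_congr rfl fun d hd => ?_
        rw [Fintype.prod_sum_type]
        simp only [Sum.elim_inl, Sum.elim_inr]
        rw [h1 d hd, mul_sum, mul_sum]
        refine sum_congr rfl fun u _ => ?_
        push_cast
        simp only [algebraMap_int_eq, eq_intCast]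
        ring
    _ = ∑ u ∈ S, ∑ d ∈ P.support, (((P.coeff d * ((stuffleAll (factors W d)).count u : ℤ) : ℤ) : ℂ) *
          ∏ j, x j ^ d (Sum.inl j)) * F u := sum_comm
    _ = _ := by
        refine sum_congr rfl fun u _ => ?_
        rw [normal, map_sum, sum_mul]
        refine sum_congr rfl fun d _ => ?_
        rw [map_mul, MvPolynomial.aeval_C, map_prod]
        simp only [map_pow, MvPolynomial.aeval_X, algebraMap_int_eq, eq_intCast]

lemma normal_sub (x : Fin m → ℂ) (W : Fin r → List ℕ) (P Q : MvPolynomial (Fin m ⊕ Fin r) ℤ) (u : List ℕ) :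
    MvPolynomial.aeval x (normal W (P - Q) u) =
      MvPolynomial.aeval x (normal W P u) - MvPolynomial.aeval x (normal W Q u) := by
  classical
  have h1 : ∀ (R : MvPolynomial (Fin m ⊕ Fin r) ℤ) (T : Finset (Fin m ⊕ Fin r →₀ ℕ)), R.support ⊆ T →
      normal W R u = ∑ e ∈ T, MvPolynomial.C (R.coeff e * ((stuffleAll (factors W e)).count u : ℤ)) *
        ∏ j, MvPolynomial.X j ^ e (Sum.inl j) := by
    intro R T hRT
    rw [normal]
    refine sum_subset hRT fun e _ he => ?_
    rw [MvPolynomial.notMem_support_iff.1 he, zero_mul, map_zero, zero_mul]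
  set T := P.support ∪ Q.support ∪ (P - Q).support with hT
  rw [h1 P T (subset_union_left.trans subset_union_left), h1 Q T (subset_union_right.trans subset_union_left),
    h1 (P - Q) T subset_union_right, ← map_sub, ← sum_sub_distrib]
  congr 1
  refine sum_congr rfl fun e _ => ?_
  rw [MvPolynomial.coeff_sub, sub_mul, map_sub, sub_mul]

end

/-- **Reduction to the constants.** Let `w_1, …, w_r` be patterns in `k` variables with a first letter which is not
constant, `m`, `D`, `κ` natural numbers. There is a `K` such that for all real `C` and all complex numbers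
`x_1, …, x_m`, for all large `N`: for all but at most `K N ^ (k - 1)` of the tuples `s` of integers
`N ≤ s_j ≤ κ N` and all polynomials `P`, `Q` of degree at most `D` with integer coefficients of absolute value at
most `C ^ N`, the expressions `P(x, ζ(w_1(s)), …, ζ(w_r(s)))` and `Q(x, ζ(w_1(s)), …, ζ(w_r(s)))` are equal if and
only if the coefficients of all indices in the normal forms have the same values at `x` (`Reduced`). -/
theorem result {k r : ℕ} (m : ℕ) (w : Fin r → List (Letter k)) (hw : ∀ i, Growing (w i)) (D κ : ℕ) :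
    ∃ K : ℕ, ∀ (C : ℝ) (x : Fin m → ℂ), ∃ N₀ : ℕ, ∀ N : ℕ, N₀ ≤ N →
      {s : Fin k → ℕ | (∀ j, N ≤ s j ∧ s j ≤ κ * N) ∧
        ¬ Reduced x (fun i => index s (w i)) D (C ^ N)}.ncard ≤ K * N ^ (k - 1) := by
  classical
  obtain ⟨K, hK⟩ := few m k r D w hw κ
  refine ⟨K, fun C x => ?_⟩
  obtain ⟨N₁, hN₁⟩ := hK (2 * |C|) x
  -- the lengths
  obtain ⟨ℓ, hℓ⟩ : ∃ ℓ : ℕ, ∀ i, (w i).length ≤ ℓ :=
    ⟨∑ i, (w i).length, fun i => single_le_sum (f := fun i => (w i).length) (fun _ _ => Nat.zero_le _) (mem_univ i)⟩
  refine ⟨N₁ + r * D * ℓ + 2, fun N hN => ?_⟩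
  set E : Set (Fin k → ℕ) := {s | (∀ j, N ≤ s j ∧ s j ≤ κ * N) ∧
    ¬ Reduced x (fun i => index s (w i)) D (C ^ N)} with hE
  have hfin : E.Finite := by
    refine (Set.Finite.pi' (t := fun _ : Fin k => Set.Icc N (κ * N)) fun _ => Set.finite_Icc _ _).subset ?_
    intro s hs j
    exact ⟨(hs.1 j).1, (hs.1 j).2⟩
  rw [Set.ncard_eq_toFinset_card _ hfin]
  refine hN₁ N (by omega) _ fun s hs => ?_
  rw [Set.Finite.mem_toFinset] at hs
  obtain ⟨hs1, hs2⟩ := hs
  refine ⟨hs1, ?_⟩
  unfold Reduced at hs2
  push Not at hs2
  obtain ⟨P, Q, hPD, hQD, hPH, hQH, hne⟩ := hs2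
  set W : Fin r → List ℕ := fun i => index s (w i) with hW
  -- the indices are in the region of convergence
  have hlet : ∀ i, ∀ n ∈ W i, 1 ≤ n := by
    intro i n hn
    obtain ⟨u, hu, rfl⟩ := List.mem_map.1 hn
    rcases (hw i).2 u hu with h | h
    · obtain ⟨j, hj⟩ := Function.ne_iff.1 h
      have h1 : 1 ≤ u.2 j := Nat.one_le_iff_ne_zero.2 hj
      have h2 : u.2 j * s j ≤ ∑ j, u.2 j * s j :=
        single_le_sum (f := fun j => u.2 j * s j) (fun _ _ => Nat.zero_le _) (mem_univ j)
      have h3 := (hs1 j).1
      have h4 : s j ≤ u.2 j * s j := Nat.le_mul_of_pos_left _ h1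
      omega
    · omega
  have hhead : ∀ i, ∀ n ∈ (W i).head?, N ≤ n := by
    intro i n hn
    rw [hW] at hn
    simp only [index, List.head?_map, Option.mem_def, Option.map_eq_some_iff] at hn
    obtain ⟨u, hu, rfl⟩ := hn
    obtain ⟨j, hj⟩ := Function.ne_iff.1 ((hw i).1 u hu)
    have h1 : 1 ≤ u.2 j := Nat.one_le_iff_ne_zero.2 hj
    have h2 : u.2 j * s j ≤ ∑ j, u.2 j * s j :=
      single_le_sum (f := fun j => u.2 j * s j) (fun _ _ => Nat.zero_le _) (mem_univ j)
    have h3 := (hs1 j).1
    have h4 : s j ≤ u.2 j * s j := Nat.le_mul_of_pos_left _ h1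
    omega
  -- the support
  set T : Finset (Fin m ⊕ Fin r →₀ ℕ) := P.support ∪ Q.support ∪ (P - Q).support with hT
  have hPT : P.support ⊆ T := subset_union_left.trans subset_union_left
  have hQT : Q.support ⊆ T := subset_union_right.trans subset_union_left
  have hRT : (P - Q).support ⊆ T := subset_union_right
  have hRD : (P - Q).totalDegree ≤ D := (MvPolynomial.totalDegree_sub _ _).trans (max_le hPD hQD)
  have hTD : ∀ e ∈ T, ∀ i, e (Sum.inr i) ≤ D := by
    intro e he i
    have h1 : (e.sum fun _ n => n) ≤ D := by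
      rcases mem_union.1 he with h | h
      · rcases mem_union.1 h with h | h
        · exact (MvPolynomial.le_totalDegree h).trans hPD
        · exact (MvPolynomial.le_totalDegree h).trans hQD
      · exact (MvPolynomial.le_totalDegree h).trans hRD
    refine le_trans ?_ h1
    rw [Finsupp.sum_fintype _ _ fun _ => rfl]
    exact single_le_sum (f := fun a => e a) (fun _ _ => Nat.zero_le _) (mem_univ (Sum.inr i))
  set S : Finset (List ℕ) := T.biUnion fun e => (stil (factors W e)).toFinset with hS
  have hTS : ∀ e ∈ T, ∀ u ∈ stil (factors W e), u ∈ S := fun e he u hu =>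
    mem_biUnion.2 ⟨e, he, List.mem_toFinset.2 hu⟩
  -- the stuffle product for the multiple zeta values
  have hmz : ∀ e ∈ T, ((factors W e).map fun u => ((mz u : ℝ) : ℂ)).prod =
      ((stil (factors W e)).map fun u => ((mz u : ℝ) : ℂ)).sum := by
    intro e he
    obtain ⟨B, hB⟩ : ∃ B : ℕ, ∀ i, ∀ n ∈ W i, n ≤ B :=
      ⟨∑ i, (W i).sum, fun i n hn => (List.single_le_sum (fun _ _ => Nat.zero_le _) _ hn).trans
        (single_le_sum (f := fun i => (W i).sum) (fun _ _ => Nat.zero_le _) (mem_univ i))⟩
    have h1 : (factors W e).length ≤ r * D := by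
      rw [factors, List.length_flatMap]
      simp only [List.length_replicate]
      calc ((List.finRange r).map fun i => e (Sum.inr i)).sum
          ≤ ((List.finRange r).map fun _ => D).sum := List.sum_le_sum fun i _ => hTD e he i
        _ = r * D := by simp
    have h2 : (factors W e).length * ℓ + 1 ≤ N := by
      have : (factors W e).length * ℓ ≤ r * D * ℓ := Nat.mul_le_mul_right _ h1
      omega
    have h3 := mz_prod (n := N) (K := (B : ℝ)) (Nat.cast_nonneg _) (r := ℓ) (factors W e) (fun u hu => by
      rw [factors, List.mem_flatMap] at hu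
      obtain ⟨i, -, hi⟩ := hu
      rw [List.eq_of_mem_replicate hi]
      refine ⟨by rw [hW]; simp only [index, List.length_map]; exact hℓ i, fun n hn => ⟨hlet i n hn, ?_⟩, hhead i⟩
      exact_mod_cast hB i n hn) h2
    have h4 : ∀ L : List (List ℕ), (L.map fun u => ((mz u : ℝ) : ℂ)).prod = (((L.map mz).prod : ℝ) : ℂ) := by
      intro L
      induction L with
      | nil => simp
      | cons a L ih => rw [List.map_cons, List.prod_cons, ih, List.map_cons, List.prod_cons, Complex.ofReal_mul]
    have h5 : ∀ L : List (List ℕ), (L.map fun u => ((mz u : ℝ) : ℂ)).sum = (((L.map mz).sum : ℝ) : ℂ) := by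
      intro L
      induction L with
      | nil => simp
      | cons a L ih => rw [List.map_cons, List.sum_cons, ih, List.map_cons, List.sum_cons, Complex.ofReal_add]
    rw [h4, h5, h3]
  have hval : ∀ R : MvPolynomial (Fin m ⊕ Fin r) ℤ, R.support ⊆ T →
      val x W R = ∑ u ∈ S, MvPolynomial.aeval x (normal W R u) * ((mz u : ℝ) : ℂ) := by
    intro R hR
    rw [val, mzv_eq]
    exact aeval_expand x W R (fun u => ((mz u : ℝ) : ℂ)) T hR hmz S hTS
  -- the backward direction
  have hback : (∀ u, MvPolynomial.aeval x (normal W P u) = MvPolynomial.aeval x (normal W Q u)) →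
      val x W P = val x W Q := by
    intro h
    rw [hval P hPT, hval Q hQT]
    exact sum_congr rfl fun u _ => by rw [h u]
  have hne' : val x W P = val x W Q ∧
      ∃ u, MvPolynomial.aeval x (normal W P u) ≠ MvPolynomial.aeval x (normal W Q u) := by
    rcases hne with h | ⟨h1, h2⟩
    · exact h
    · exact absurd (hback h2) h1
  obtain ⟨heq, u₀, hu₀⟩ := hne'
  refine ⟨P - Q, hRD, fun e => ?_, ?_, fun htriv => ?_⟩
  · have h3 : C ^ N ≤ |C| ^ N := (le_abs_self _).trans (abs_pow _ _).le
    have h4 : (2 : ℝ) ≤ 2 ^ N := le_self_pow₀ (by norm_num) (by omega)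
    have h5 : 0 ≤ |C| ^ N := by positivity
    have h6 := hPH e
    have h7 := hQH e
    rw [mul_pow, MvPolynomial.coeff_sub]
    push_cast
    calc |((P.coeff e : ℤ) : ℝ) - ((Q.coeff e : ℤ) : ℝ)| ≤ |((P.coeff e : ℤ) : ℝ)| + |((Q.coeff e : ℤ) : ℝ)| :=
          abs_sub _ _
      _ ≤ 2 * |C| ^ N := by linarith
      _ ≤ 2 ^ N * |C| ^ N := mul_le_mul_of_nonneg_right h4 h5
  · have h1 : MvPolynomial.aeval (Sum.elim x fun i => ((mz (ix s (w i)) : ℝ) : ℂ)) (P - Q) =
        val x W P - val x W Q := by
      rw [val, val, mzv_eq, ← map_sub]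
      rfl
    rw [h1, heq, sub_self]
  · -- the coefficients vanish
    have hZt : ∀ (t : List ℂ) (L : List (List ℕ)), (L.map (Zt t)).prod = ((stil L).map (Zt t)).sum := by
      intro t L
      induction L with
      | nil =>
        rw [stil]
        simp [Zt_nil]
      | cons u L ih =>
        rw [List.map_cons, List.prod_cons, ih, stil]
        generalize stil L = M
        induction M with
        | nil => simp
        | cons v M ih2 =>
          rw [List.map_cons, List.sum_cons, mul_add, List.flatMap_cons, List.map_append, List.sum_append,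
            ih2, Zt_mul]
    have h1 : ∀ t : List ℂ, ∑ u ∈ S, MvPolynomial.aeval x (normal W (P - Q) u) * Zt t u = 0 := by
      intro t
      rw [← aeval_expand x W (P - Q) (Zt t) T hRT (fun e _ => hZt t _) S hTS]
      have h2 := htriv ℂ x (Zt t) (fun Q hQ => hQ) (fun u v _ _ => Zt_mul t u v)
      rw [← h2]
      congr 2
      funext a
      rcases a with j | i
      · rfl
      · show Zt t (W i) = ex (Zt t) (ix s (w i))
        by_cases h3 : W i = []
        · have h4 : ix s (w i) = [] := h3
          rw [h3, h4, Zt_nil, ex_nil]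
        · have h4 : ix s (w i) ≠ [] := h3
          rw [ex_ne _ h4]
          rfl
    have h2 : ∀ u ∈ S, MvPolynomial.aeval x (normal W (P - Q) u) = 0 :=
      Pool.Agent.N665.LP.Zt_indep (S.sup List.length) S (fun u => MvPolynomial.aeval x (normal W (P - Q) u))
        (fun u hu => Finset.le_sup (f := List.length) hu) h1
    have h3 : MvPolynomial.aeval x (normal W (P - Q) u₀) = 0 := by
      by_cases hu : u₀ ∈ S
      · exact h2 u₀ hu
      · rw [normal, sum_eq_zero, map_zero]
        intro e he
        have h4 : (stuffleAll (factors W e)).count u₀ = 0 := by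
          rw [List.count_eq_zero, stuffleAll_eq]
          exact fun h => hu (hTS e (hRT he) u₀ h)
        rw [h4]
        simp
    rw [normal_sub] at h3
    exact hu₀ (sub_eq_zero.1 h3)

end Pool.Agent.Results.MP_bbe012_lc.ReductionToConstants
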