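import Pool.Agent.N760.SC.B
import Pool.Agent.Results.MP_bbe012_lc.ReductionToConstants

/-!
# Equality of expressions over arbitrary constants, at the values of arithmetic functions

Let `x_1, …, x_m` be ARBITRARY complex numbers, for instance periods, and let `w_1, …, w_r` be patterns in `k`
variables: lists of letters `b + u_1 s_1 + … + u_k s_k` with a first letter which is not constant. We consider the
expressions `P(x, ζ(w_1(s)), …, ζ(w_r(s)))` with polynomials `P` of bounded degree with integer coefficients of
exponential size, and their normal forms `∑_u P_u(x) ζ(u)`, a sum over indices `u`, after the expansion of the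
products of the multiple zeta values by the stuffle product.

Let `F_1, …, F_k` be positive multiplicative functions of at most polynomial growth with `F_i p ≤ M p` for the large
primes `p` and different values at different large primes, for example Euler's function or the sum of the divisors.
For all large `N` and all tuples `n` in `[1, N] ^ k` but at most `N ^ k / (log N) ^ U` of them the following holds for
ALL the tuples `s` of natural numbers near the tuple of the values, `|s_i - F_i(n_i)| ≤ F_i(n_i) ^ θ`, in a cone
`T ≤ s_i ≤ κ T` (`k θ < 1`): two such expressions, with polynomials `P`, `Q` with coefficients of absolute value at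
most `C ^ T`, are equal if and only if `P_u(x) = Q_u(x)` for all `u`. So the question of the equality of such periods
is reduced to the question for polynomials in the fixed constants `x_j`.

The tuples of the values of such functions form a thin set (for Euler's function, a set with about `X ^ k / (log X) ^ k`
elements up to `X`, up to smaller factors) and they are taken with very large multiplicities. So this does not follow
from the number of the exceptional tuples (`ReductionToConstants`: at most `K N ^ (k - 1)` in `[N, κ N] ^ k`). The tool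
for the values of multiplicative functions is `Pool.Agent.N760.SC` (starting library).
-/

set_option autoImplicit false

namespace Pool.Agent.Results.MP_bbe012_lc.MultiplicativeValues

open Pool.Agent.N733.TG (LM lm_totient lm_sigma)
open Pool.Agent.Results.MP_bbe012_lc.ReductionToConstants (Letter index Growing Reduced)

lemma reduced_mono {m r : ℕ} (x : Fin m → ℂ) (W : Fin r → List ℕ) (D : ℕ) {H H' : ℝ} (h : H ≤ H')
    (hs : Reduced x W D H') : Reduced x W D H :=
  fun P Q h1 h2 h3 h4 => hs P Q h1 h2 (fun e => (h3 e).trans h) (fun e => (h4 e).trans h)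

lemma pow_bound (C : ℝ) {N T : ℕ} (h : T ≤ 2 * N) : C ^ T ≤ ((max |C| 1) ^ 2) ^ N := by
  have h5 : (1 : ℝ) ≤ max |C| 1 := le_max_right _ _
  calc C ^ T ≤ |C ^ T| := le_abs_self _
    _ = |C| ^ T := abs_pow C T
    _ ≤ (max |C| 1) ^ T := pow_le_pow_left₀ (abs_nonneg C) (le_max_left _ _) T
    _ ≤ (max |C| 1) ^ (2 * N) := pow_le_pow_right₀ h5 h
    _ = _ := pow_mul _ _ _

/-- **Reduction to the constants at the values of multiplicative functions.** Let `w_1, …, w_r` be patterns in `k ≥ 1`
variables with a first letter which is not constant, `x_1, …, x_m` complex numbers, `D`, `κ` natural numbers and `C` a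
real number. Let `F_1, …, F_k` be functions with `LM`, `θ ≥ 0`, `k θ < 1`, and `U` a natural number. For all large `N` and
all but at most `N^k / (log N)^U` of the tuples `n` of integers in `[1, N]`: for ALL tuples `s` of natural numbers with
`|s_i - F_i(n_i)| ≤ F_i(n_i)^θ` and all `T ≥ 1` with `T ≤ s_i ≤ κ T` for all `i` and all polynomials `P`, `Q` of degree at
most `D` with integer coefficients of absolute value at most `C ^ T`, the expressions `P(x, ζ(w_1(s)), …, ζ(w_r(s)))` and
`Q(x, ζ(w_1(s)), …, ζ(w_r(s)))` are equal if and only if the coefficients of all indices in the normal forms have the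
same values at `x` (`Reduced`). Euler's function and the sum of the divisors satisfy `LM`. -/
theorem result :
    (∀ {k r m : ℕ}, 1 ≤ k → ∀ w : Fin r → List (Letter k), (∀ i, Growing (w i)) →
      ∀ (x : Fin m → ℂ) (D κ : ℕ) (C : ℝ) (F : Fin k → ℕ → ℕ), (∀ i, LM (F i)) →
      ∀ θ : ℝ, 0 ≤ θ → k * θ < 1 → ∀ U : ℕ, ∃ N₀ : ℕ, ∀ N : ℕ, N₀ ≤ N →
      ({n : Fin k → ℕ | (∀ i, 1 ≤ n i ∧ n i ≤ N) ∧ ¬ ∀ (s : Fin k → ℕ) (T : ℕ), 1 ≤ T →
        (∀ i, T ≤ s i ∧ s i ≤ κ * T) → (∀ i, |(s i : ℝ) - F i (n i)| ≤ (F i (n i) : ℝ) ^ θ) →
          Reduced x (fun i => index s (w i)) D (C ^ T)}.ncard : ℝ) ≤ (N : ℝ) ^ k / Real.log N ^ U) ∧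
    LM Nat.totient ∧ LM (fun n => ∑ d ∈ n.divisors, d) := by
  refine ⟨fun {k r m} hk w hw x D κ C F hF θ hθ hθk U => ?_, lm_totient, lm_sigma⟩
  obtain ⟨K, hK⟩ := ReductionToConstants.result m w hw D (2 * κ)
  obtain ⟨N₁, hN₁⟩ := hK ((max |C| 1) ^ 2) x
  obtain ⟨N₀, hN₀⟩ := Pool.Agent.N760.SC.keep_scales hk κ
    (fun T s => ¬ Reduced x (fun i => index s (w i)) D (C ^ T))
    (fun N s => ¬ Reduced x (fun i => index s (w i)) D (((max |C| 1) ^ 2) ^ N))
    (fun N T s h1 h2 h3 h4 => h3 (reduced_mono x _ D (pow_bound C h2.le) h4))
    ⟨K, N₁, hN₁⟩ hF hθ hθk U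
  refine ⟨N₀, fun N hN => le_trans (le_of_eq ?_) (hN₀ N hN)⟩
  simp only [not_not]

end Pool.Agent.Results.MP_bbe012_lc.MultiplicativeValues
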